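import Pool.Agent.R766.FT.Frog

/-!
# A tree of speed one on which the frog model has no transient regime

There is an infinite locally finite tree on which simple random walk has speed `1` almost surely
and for which the frog model with Poisson(`lam`) sleeping particles per non-root vertex is not
transient for any `lam > 0`.

The tree. Vertices are words of natural numbers. A word of length `n` without the letter `0` has
`β n + 1` children; its child with the letter `0` is a trap, a vertex with `M n` children that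
are leaves. Here `∑ 1 / β n < ∞`, so the walk makes finitely many steps that do not go to a
non-trap child. But `β n` is of order `√n` for `n = 4 ^ k`, so, of the `n` particles (or more)
woken by the first one below level `n`, many visit a trap above level `n`. As `M n` is huge, each
of these traps has leaves with a particle that will visit the root if it is woken, and a particle
at such a trap visits one of these leaves with probability at least `1 / 2`.

The model is the one of `Pool.Agent.W852.FG.Defs`.
-/

set_option autoImplicit false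

open MeasureTheory ProbabilityTheory Filter FrogGW Pool.Agent.R766.FT
open scoped ENNReal NNReal Topology

namespace Pool.Agent.Results.MP_32e6ae_pr.NoTransientRegime

/-- The exponent of the branching numbers. -/
def hf (n : ℕ) : ℕ := if n = 4 ^ Nat.log 4 n then Nat.log 4 n + 4 else n + 4

/-- The branching numbers. -/
def be (n : ℕ) : ℕ := 2 ^ hf n

/-- The numbers of leaves. -/
def Mm (n : ℕ) : ℕ := n * (Dg be n) ^ 2

lemma be_ge (n : ℕ) : 6 ≤ be n := by
  have h1 : 4 ≤ hf n := by
    unfold hf; split_ifs <;> omega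
  calc 6 ≤ 2 ^ 4 := by norm_num
    _ ≤ 2 ^ hf n := Nat.pow_le_pow_right (by norm_num) h1

lemma aa_pow (e n : ℕ) (h : hf n = e + 4) : aa be n ≤ 1 / 8 * (1 / 2) ^ e := by
  unfold aa be
  rw [h]
  push_cast
  have h1 : (0 : ℝ) < 2 ^ e := by positivity
  have h2 : (1 / 8 : ℝ) * (1 / 2) ^ e = 2 / 2 ^ (e + 4) := by
    rw [pow_add, one_div_pow]; field_simp; norm_num
  rw [h2]
  apply div_le_div_of_nonneg_left (by norm_num) (by positivity)
  linarith

lemma aa_le (n : ℕ) : aa be n ≤ 1 / 8 * (1 / 2) ^ n +
    (if n = 4 ^ Nat.log 4 n then 1 / 8 * (1 / 2 : ℝ) ^ Nat.log 4 n else 0) := by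
  by_cases h : n = 4 ^ Nat.log 4 n
  · rw [if_pos h]
    have h1 := aa_pow (Nat.log 4 n) n (by unfold hf; rw [if_pos h])
    have h2 : (0 : ℝ) ≤ 1 / 8 * (1 / 2) ^ n := by positivity
    linarith
  · rw [if_neg h, add_zero]
    exact aa_pow n n (by unfold hf; rw [if_neg h])

lemma aa_sum (N : ℕ) : ∑ j ∈ Finset.range N, aa be j ≤ 1 / 2 := by
  classical
  have hgeo : ∑ k ∈ Finset.range N, (1 / 8 * (1 / 2 : ℝ) ^ k) ≤ 1 / 4 := by
    rw [← Finset.mul_sum]
    have := sum_geometric_two_le N
    linarith
  have h1 : ∑ j ∈ Finset.range N,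
      (if j = 4 ^ Nat.log 4 j then 1 / 8 * (1 / 2 : ℝ) ^ Nat.log 4 j else 0) ≤ 1 / 4 := by
    rw [← Finset.sum_filter]
    have hinj : Set.InjOn (Nat.log 4) ((Finset.range N).filter (fun j => j = 4 ^ Nat.log 4 j) :
        Finset ℕ) := by
      intro a ha b hb hab
      have ha' := (Finset.mem_filter.1 (Finset.mem_coe.1 ha)).2
      have hb' := (Finset.mem_filter.1 (Finset.mem_coe.1 hb)).2
      rw [ha', hb', hab]
    rw [← Finset.sum_image (f := fun k => 1 / 8 * (1 / 2 : ℝ) ^ k) hinj]
    refine le_trans (Finset.sum_le_sum_of_subset_of_nonneg ?_ (fun _ _ _ => by positivity)) hgeo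
    intro k hk
    obtain ⟨j, hj, rfl⟩ := Finset.mem_image.1 hk
    have hj' := Finset.mem_range.1 (Finset.mem_filter.1 hj).1
    exact Finset.mem_range.2 (lt_of_le_of_lt (Nat.log_le_self 4 j) hj')
  calc ∑ j ∈ Finset.range N, aa be j
      ≤ ∑ j ∈ Finset.range N, (1 / 8 * (1 / 2 : ℝ) ^ j +
        (if j = 4 ^ Nat.log 4 j then 1 / 8 * (1 / 2 : ℝ) ^ Nat.log 4 j else 0)) :=
        Finset.sum_le_sum (fun j _ => aa_le j)
    _ ≤ 1 / 2 := by rw [Finset.sum_add_distrib]; linarith

lemma pow_bound {x : ℝ} (hx0 : 0 < x) (hx1 : x ≤ 1) {m : ℕ} (hm : 0 < m) :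
    (1 - x) ^ m ≤ 1 / (m * x) := by
  have hm' : (0 : ℝ) < m := by exact_mod_cast hm
  have h1 : 1 + (m : ℝ) * x ≤ (1 + x) ^ m := one_add_mul_le_pow (by linarith) m
  have h2 : (1 - x) ^ m * (1 + x) ^ m ≤ 1 := by
    rw [← mul_pow]
    exact pow_le_one₀ (mul_nonneg (by linarith) (by linarith)) (by nlinarith)
  have h3 : 0 ≤ (1 - x) ^ m := pow_nonneg (by linarith) m
  rw [le_div_iff₀ (by positivity)]
  nlinarith

lemma pp_pos {lam : ℝ≥0} (hl : 0 < lam) : 0 < pp lam := by
  unfold pp
  have h1 : (poissonMeasure lam).real {1} ≤ (poissonMeasure lam).real {n | 0 < n} :=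
    measureReal_mono (by intro n hn; simp at hn; simp [hn])
  refine lt_of_lt_of_le ?_ h1
  rw [poissonMeasure_real_singleton]
  have : (0 : ℝ) < lam := by exact_mod_cast hl
  positivity

/-- There is an infinite locally finite tree on which simple random walk started at the root has
speed `1` almost surely, and on which the frog model is not transient for any density. -/
theorem result : ∃ Z : Env, {x | InTree Z x}.Infinite ∧
    (∀ᵐ u ∂(Measure.infinitePi fun _ : ℕ => unif),
      Tendsto (fun n : ℕ => ((walk Z [] u n).length : ℝ) / n) atTop (𝓝 1) ∧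
      1 ≤ liminf (fun n : ℕ => ((walk Z [] u n).length : ℝ) / n) atTop) ∧
    ∀ lam : ℝ≥0, 0 < lam → ¬ Transient Z lam := by
  refine ⟨ZZ be Mm, ?_, ?_, ?_⟩
  · -- infinite
    have h1 : ∀ n, ∃ x, InTree (ZZ be Mm) x ∧ 0 ∉ x ∧ x.length = n := by
      intro n
      induction n with
      | zero => exact ⟨[], trivial, by simp, rfl⟩
      | succ n ih =>
        obtain ⟨x, hx, h0, hl⟩ := ih
        refine ⟨1 :: x, ⟨hx, ?_⟩, by simp [h0], by simp [hl]⟩
        rw [ZZ_NT be Mm h0]
        have := be_ge x.length
        omega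
    intro hfin
    obtain ⟨L, hL⟩ := (hfin.image List.length).bddAbove
    obtain ⟨x, hx, _, hl⟩ := h1 (L + 1)
    have := hL ⟨x, hx, rfl⟩
    omega
  · filter_upwards [ae_speed be Mm be_ge aa_sum (x := []) trivial] with u hu
    exact ⟨hu, hu.liminf_eq.ge⟩
  · intro lam hlam
    apply not_transient
    intro N
    have hp := pp_pos hlam
    have hp1 := pp_le_one lam
    obtain ⟨k0, hk0⟩ := pow_unbounded_of_one_lt (146 / pp lam) (one_lt_two : (1 : ℝ) < 2)
    set k := max N k0 with hk
    have hNk : N ≤ k := le_max_left _ _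
    have hk2 : 146 / pp lam < 2 ^ k := lt_of_lt_of_le hk0
      (pow_le_pow_right₀ one_le_two (le_max_right _ _))
    set n := 4 ^ k with hn
    have hnk : k < n := Nat.lt_pow_self (by norm_num)
    refine ⟨n, by omega, ?_⟩
    have hn0 : 0 < n := by omega
    have hbe : (be n : ℝ) = 16 * 2 ^ k := by
      unfold be hf
      rw [hn, Nat.log_pow (by norm_num), if_pos rfl]
      push_cast
      ring
    have hnR : (n : ℝ) = 2 ^ k * 2 ^ k := by
      rw [hn]
      push_cast
      rw [← mul_pow]; norm_num
    set w : ℝ := 2 ^ k with hw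
    have hw1 : 1 ≤ w := one_le_pow₀ one_le_two
    have hD : (1 : ℝ) ≤ Dg be n := by exact_mod_cast Dg_pos be n
    have hb1 : (Dg be n : ℝ) * (1 - pp lam / (Dg be n : ℝ)) ^ (Mm n) ≤ 1 / (pp lam * w) := by
      have hM0 : 0 < Mm n := Nat.mul_pos hn0 (pow_pos (Dg_pos be n) 2)
      have h1 := pow_bound (x := pp lam / (Dg be n : ℝ)) (by positivity)
        (by rw [div_le_one (by linarith)]; linarith) hM0
      calc (Dg be n : ℝ) * (1 - pp lam / (Dg be n : ℝ)) ^ (Mm n)
          ≤ (Dg be n : ℝ) * (1 / ((Mm n : ℝ) * (pp lam / (Dg be n : ℝ)))) := by gcongr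
        _ = 1 / (pp lam * (w * w)) := by
            unfold Mm
            push_cast
            rw [hnR]
            field_simp
        _ ≤ 1 / (pp lam * w) := by
            apply div_le_div_of_nonneg_left (by norm_num) (by positivity)
            have : w ≤ w * w := by nlinarith
            gcongr
    have hb2 : (1 - pp lam / (4 * ((be n : ℝ) + 2))) ^ n ≤ 72 / (pp lam * w) := by
      have h0 : pp lam / (4 * ((be n : ℝ) + 2)) ≤ 1 := by
        rw [div_le_one (by positivity)]
        have : (0 : ℝ) ≤ be n := by positivity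
        linarith
      have h1 := pow_bound (x := pp lam / (4 * ((be n : ℝ) + 2))) (by positivity) h0 hn0
      refine h1.trans ?_
      rw [hbe, hnR]
      have h2 : 1 / (w * w * (pp lam / (4 * (16 * w + 2)))) = (4 * (16 * w + 2)) / (pp lam * w * w) := by
        field_simp
      rw [h2, div_le_div_iff₀ (by positivity) (by positivity)]
      have h3 : 4 * (16 * w + 2) ≤ 72 * w := by nlinarith
      calc 4 * (16 * w + 2) * (pp lam * w) ≤ 72 * w * (pp lam * w) := by gcongr
        _ = 72 * (pp lam * w * w) := by ring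
    refine (FM_EE be Mm lam be_ge aa_sum n).trans ?_
    rw [← ENNReal.ofReal_add ?_ ?_]
    · have h5 : (Dg be n : ℝ) * (1 - pp lam / (Dg be n : ℝ)) ^ (Mm n) +
          (1 - pp lam / (4 * ((be n : ℝ) + 2))) ^ n ≤ 1 / 2 := by
        have h6 : 1 / (pp lam * w) + 72 / (pp lam * w) ≤ 1 / 2 := by
          rw [← add_div, div_le_div_iff₀ (by positivity) (by norm_num)]
          rw [div_lt_iff₀ hp] at hk2
          nlinarith
        linarith
      calc ENNReal.ofReal _ ≤ ENNReal.ofReal (1 / 2) := ENNReal.ofReal_le_ofReal h5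
        _ = 1 / 2 := by
            rw [ENNReal.ofReal_div_of_pos (by norm_num), ENNReal.ofReal_one]
            norm_num
    · have : pp lam / (Dg be n : ℝ) ≤ 1 := by
        rw [div_le_one (by linarith)]; linarith
      have h7 : 0 ≤ (1 - pp lam / (Dg be n : ℝ)) ^ (Mm n) := pow_nonneg (by linarith) _
      positivity
    · have h0 : pp lam / (4 * ((be n : ℝ) + 2)) ≤ 1 := by
        rw [div_le_one (by positivity)]
        have : (0 : ℝ) ≤ be n := by positivity
        linarith
      exact pow_nonneg (by linarith) _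

end Pool.Agent.Results.MP_32e6ae_pr.NoTransientRegime
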